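import Mathlib

/-!
# Symmetric designs with 16 points and block size 10 have no 0-ULSE 6-colouring

The numbers `(v, k, l) = (16, 10, 6)` satisfy `v = l (l - 2) k / ((l - 1)^2 - k)`, and a symmetric
design with 16 points and block size 10 exists, but a colour class would have `8/3` points.
-/

namespace Pool.Agent.Results.MP_9fbb3c_co.SixteenTen

/-- `B` lists the blocks of a `(v, k, l)`-BIBD with `b` blocks (repeated blocks allowed). -/
structure IsBIBD (v k l b : ℕ) (B : Fin b → Finset (Fin v)) : Prop where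
  two_le : 2 ≤ k
  lt : k < v
  pos : 1 ≤ l
  size : ∀ i, (B i).card = k
  balance : ∀ x y : Fin v, x ≠ y → (Finset.univ.filter (fun i => x ∈ B i ∧ y ∈ B i)).card = l

/-- `B` lists the blocks of a symmetric BIBD with `v` points and block size `k`. -/
def IsSymmetricBIBD (v k : ℕ) (B : Fin v → Finset (Fin v)) : Prop := ∃ l, IsBIBD v k l v B

/-- `f` is a `0`-ULSE `c`-colouring: `c - 1` divides `k`, all `c` colours occur, and in each block
exactly one colour is absent while every other colour occurs exactly `k / (c - 1)` times. -/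
def IsZeroULSE (v k c b : ℕ) (B : Fin b → Finset (Fin v)) (f : Fin v → Fin c) : Prop :=
  Function.Surjective f ∧ (c - 1) ∣ k ∧ ∀ i, ∃ a : Fin c,
    ((B i).filter (fun x => f x = a)).card = 0 ∧
      ∀ a' : Fin c, a' ≠ a → ((B i).filter (fun x => f x = a')).card = k / (c - 1) ∧
        ((B i).filter (fun x => f x = a')).card ≠ 0

/-- the complement of the biplane with block size six -/
def B₀ : Fin 16 → Finset (Fin 16) := fun i => Finset.univ.filter (fun j =>
  i = j ∨ (i.val / 4 ≠ j.val / 4 ∧ i.val % 4 ≠ j.val % 4))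

theorem isBIBD₀ : IsSymmetricBIBD 16 10 B₀ :=
  ⟨6, by norm_num, by norm_num, by norm_num, by decide +kernel, by decide +kernel⟩

/-- double counting of the ordered pairs in a set `A` of points -/
lemma pairs {v k l b : ℕ} {B : Fin b → Finset (Fin v)} (h : IsBIBD v k l b B)
    (A : Finset (Fin v)) :
    ∑ i, ((B i).filter (fun x => x ∈ A)).card * (((B i).filter (fun x => x ∈ A)).card - 1) =
      l * (A.card * (A.card - 1)) := by
  classical
  have h1 : ∀ i, ((B i).filter (fun x => x ∈ A)).card *
      (((B i).filter (fun x => x ∈ A)).card - 1) =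
      (A.offDiag.filter (fun p => p.1 ∈ B i ∧ p.2 ∈ B i)).card := by
    intro i
    have e : A.offDiag.filter (fun p => p.1 ∈ B i ∧ p.2 ∈ B i) =
        ((B i).filter (fun x => x ∈ A)).offDiag := by
      ext p
      simp only [Finset.mem_filter, Finset.mem_offDiag]
      tauto
    rw [e, Finset.offDiag_card, Nat.mul_sub, mul_one]
  simp only [h1]
  have h2 : ∀ i, (A.offDiag.filter (fun p => p.1 ∈ B i ∧ p.2 ∈ B i)).card =
      ∑ p ∈ A.offDiag, if p.1 ∈ B i ∧ p.2 ∈ B i then 1 else 0 := by
    intro i
    rw [Finset.card_filter]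
  simp only [h2]
  rw [Finset.sum_comm]
  have h3 : ∀ p ∈ A.offDiag, (∑ i, if p.1 ∈ B i ∧ p.2 ∈ B i then 1 else 0) = l := by
    intro p hp
    rw [← Finset.card_filter]
    exact h.balance _ _ (Finset.mem_offDiag.1 hp).2.2
  rw [Finset.sum_congr rfl h3, Finset.sum_const, Finset.offDiag_card, smul_eq_mul, mul_comm]
  congr 1
  rw [Nat.mul_sub, mul_one]

/-- the number of blocks through a point -/
lemma replication {v k l b : ℕ} {B : Fin b → Finset (Fin v)} (h : IsBIBD v k l b B)
    (x : Fin v) : (Finset.univ.filter (fun i => x ∈ B i)).card * (k - 1) = l * (v - 1) := by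
  classical
  have h1 : ∑ y ∈ Finset.univ.erase x,
      (Finset.univ.filter (fun i => x ∈ B i ∧ y ∈ B i)).card = l * (v - 1) := by
    rw [Finset.sum_congr rfl (fun y hy => h.balance x y (Finset.ne_of_mem_erase hy).symm),
      Finset.sum_const, Finset.card_erase_of_mem (Finset.mem_univ _), Finset.card_fin,
      smul_eq_mul, mul_comm]
  rw [← h1]
  simp only [Finset.card_filter]
  rw [Finset.sum_comm, Finset.sum_mul]
  refine Finset.sum_congr rfl fun i _ => ?_
  by_cases hx : x ∈ B i
  · simp only [hx, if_true, true_and, one_mul]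
    rw [← Finset.card_filter]
    have e : (Finset.univ.erase x).filter (fun y => y ∈ B i) = (B i).erase x := by
      ext y
      simp only [Finset.mem_filter, Finset.mem_erase, Finset.mem_univ]
      tauto
    rw [e, Finset.card_erase_of_mem hx, h.size]
  · simp [hx]

theorem not_coloured (B : Fin 16 → Finset (Fin 16)) (hB : IsSymmetricBIBD 16 10 B) :
    ¬ ∃ f : Fin 16 → Fin 6, IsZeroULSE 16 10 6 16 B f := by
  classical
  rintro ⟨f, -, -, hf⟩
  obtain ⟨l, h⟩ := hB
  -- the index is six
  have hl : l = 6 := by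
    have h1 := pairs h Finset.univ
    have h2 : ∀ i, ((B i).filter (fun x => x ∈ (Finset.univ : Finset (Fin 16)))).card = 10 := by
      intro i
      simp [h.size]
    simp only [h2, Finset.sum_const, Finset.card_fin, smul_eq_mul] at h1
    omega
  subst hl
  have hr : ∀ x : Fin 16, (Finset.univ.filter (fun i => x ∈ B i)).card = 10 := by
    intro x
    have := replication h x
    omega
  obtain ⟨A, hA⟩ : ∃ A : Finset (Fin 16), A = Finset.univ.filter (fun x => f x = f 0) := ⟨_, rfl⟩
  have hA0 : 0 < A.card := by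
    rw [hA]
    exact Finset.card_pos.2 ⟨0, by simp⟩
  have h02 : ∀ i, ((B i).filter (fun x => x ∈ A)).card = 0 ∨
      ((B i).filter (fun x => x ∈ A)).card = 2 := by
    intro i
    have e : (B i).filter (fun x => x ∈ A) = (B i).filter (fun x => f x = f 0) := by
      ext x
      simp [hA]
    rw [e]
    obtain ⟨a, h1, h2⟩ := hf i
    by_cases ha : f 0 = a
    · left
      rw [ha]
      exact h1
    · right
      exact (h2 _ ha).1
  have h3 := pairs h A
  have h4 : ∀ i, ((B i).filter (fun x => x ∈ A)).card *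
      (((B i).filter (fun x => x ∈ A)).card - 1) = ((B i).filter (fun x => x ∈ A)).card := by
    intro i
    rcases h02 i with h5 | h5 <;> rw [h5]
  simp only [h4] at h3
  have h5 : ∑ i, ((B i).filter (fun x => x ∈ A)).card = 10 * A.card := by
    have e1 : ∀ i, ((B i).filter (fun x => x ∈ A)).card =
        ∑ x ∈ A, if x ∈ B i then 1 else 0 := by
      intro i
      rw [← Finset.card_filter]
      congr 1
      ext x
      rw [Finset.mem_filter, Finset.mem_filter]
      exact and_comm
    simp only [e1]
    rw [Finset.sum_comm]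
    have e2 : ∀ x ∈ A, (∑ i, if x ∈ B i then 1 else 0) = 10 := by
      intro x _
      rw [← Finset.card_filter]
      exact hr x
    rw [Finset.sum_congr rfl e2, Finset.sum_const, smul_eq_mul, mul_comm]
  rw [h5] at h3
  have h6 : 10 = 6 * (A.card - 1) := by
    have : A.card * 10 = A.card * (6 * (A.card - 1)) := by
      rw [mul_comm, h3]
      ring
    exact Nat.eq_of_mul_eq_mul_left hA0 this
  omega

theorem result : ∃ v k c : ℕ, 1 ≤ v ∧ 1 ≤ k ∧ 1 ≤ c ∧ k < (c - 1) ^ 2 ∧
    v * ((c - 1) ^ 2 - k) = c * (c - 2) * k ∧ (∃ B, IsSymmetricBIBD v k B) ∧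
      ∀ B, IsSymmetricBIBD v k B → ¬ ∃ f : Fin v → Fin c, IsZeroULSE v k c v B f :=
  ⟨16, 10, 6, by norm_num, by norm_num, by norm_num, by norm_num, by norm_num,
    ⟨B₀, isBIBD₀⟩, not_coloured⟩

end Pool.Agent.Results.MP_9fbb3c_co.SixteenTen
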